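import Pool.Agent.R745.Jel.Main

open MeasureTheory Metric Filter Topology Set
open Pool.Agent.R745.Jel

namespace Pool.Agent.Results.MP_c8ec9a_mp.NeumannJelliumDiverges

/-- For every background density `ρ > 0` there is a regular sequence of connected bounded open
sets with Lipschitz boundary along which, for every inverse temperature `β > 0` and for both
statistics, the Neumann quantity `g^N(Λ_j) = |Λ_j|⁻¹ ln Tr e^{-β H^N_{Λ_j}}` of neutral quantum
jellium tends to `+∞`; in particular it converges to no real number, so it does not converge to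
the (finite) Dirichlet limit `g(β,ρ)`. -/
theorem result (ρ : ℝ) (hρ : 0 < ρ) :
    ∃ Λ : ℕ → Set E3, Regular ρ Λ ∧ (∀ j, 1 ≤ j → IsConnected (Λ j)) ∧
      ∀ β : ℝ, 0 < β → ∀ s : Stat,
        Tendsto (fun j => gN β s ρ (Λ j) j) atTop (𝓝 ⊤) ∧
        ∀ g : ℝ, ¬ Tendsto (fun j => gN β s ρ (Λ j) j) atTop (𝓝 (g : EReal)) := by
  obtain ⟨Λ, h1, h2, h3⟩ := main ρ hρ
  refine ⟨Λ, h1, h2, fun β hβ s => ⟨h3 β hβ s, fun g hg => ?_⟩⟩
  exact absurd (tendsto_nhds_unique hg (h3 β hβ s)) (EReal.coe_ne_top g)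

end Pool.Agent.Results.MP_c8ec9a_mp.NeumannJelliumDiverges
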